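import Mathlib

/-! Combinatorial data of the weights. -/

namespace Pool.Agent.V1190.WS

/-- Ends of the regions. -/
def Mp : ℕ → ℕ
  | 0 => 0
  | (P + 1) => (4 * (Mp P + (P + 1) ^ 2)) *
      3 ^ ((P + 1) * 2 ^ ((P + 1) * Mp P + 2 * (P + 1) ^ 2) + 1)

/-- Step size in a packet. -/
def Hp (P : ℕ) : ℕ := 4 * (Mp P + (P + 1) ^ 2)

/-- Number of times in a packet. -/
def Np (P : ℕ) : ℕ := (P + 1) * 2 ^ ((P + 1) * Mp P + 2 * (P + 1) ^ 2)

lemma Mp_zero : Mp 0 = 0 := rfl

lemma Mp_succ (P : ℕ) : Mp (P + 1) = Hp P * 3 ^ (Np P + 1) := rfl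

/-- The times. -/
def tm (P r : ℕ) : ℕ := Hp P * 3 ^ (r + 1)

lemma sq_ge (P : ℕ) : P + 1 ≤ (P + 1) ^ 2 := by nlinarith

lemma Hp_ge (P : ℕ) : 4 * Mp P + 4 * (P + 1) ^ 2 ≤ Hp P := by
  unfold Hp
  omega

lemma Hp_pos (P : ℕ) : 0 < Hp P := by
  have := Hp_ge P
  have := sq_ge P
  omega

lemma three_le (r : ℕ) : 3 ≤ 3 ^ (r + 1) := by
  calc 3 = 3 ^ 1 := by norm_num
    _ ≤ 3 ^ (r + 1) := Nat.pow_le_pow_right (by norm_num) (by omega)

lemma tm_ge (P r : ℕ) : 3 * Hp P ≤ tm P r := by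
  unfold tm
  rw [mul_comm]
  exact Nat.mul_le_mul_left _ (three_le r)

lemma Mp_lt (P : ℕ) : Mp P + (P + 1) < Mp (P + 1) := by
  have h1 : tm P (Np P) = Mp (P + 1) := rfl
  have h2 := tm_ge P (Np P)
  have h3 := Hp_ge P
  have h4 := sq_ge P
  omega

lemma Mp_strictMono : StrictMono Mp := strictMono_nat_of_lt_succ (fun P => by
  have := Mp_lt P
  omega)

lemma le_Mp (P : ℕ) : P ≤ Mp P := Mp_strictMono.le_apply

/-- The last time of a packet lies well below the end of the region. -/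
lemma tm_le {P r : ℕ} (hr : r < Np P) : tm P r + P ≤ Mp (P + 1) := by
  have h1 : tm P r ≤ Hp P * 3 ^ (Np P) := by
    unfold tm
    exact Nat.mul_le_mul_left _ (Nat.pow_le_pow_right (by norm_num) (by omega))
  have h2 : Mp (P + 1) = 3 * (Hp P * 3 ^ (Np P)) := by
    rw [Mp_succ, pow_succ]
    ring
  have h3 : Hp P ≤ Hp P * 3 ^ (Np P) := Nat.le_mul_of_pos_right _ (by positivity)
  have h4 := Hp_ge P
  have h5 := sq_ge P
  omega

lemma tm_lt {P r s : ℕ} (h : r < s) : tm P r + Hp P ≤ tm P s := by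
  unfold tm
  have h1 : 3 ^ (r + 1) + 1 ≤ 3 ^ (s + 1) := by
    exact Nat.pow_lt_pow_right (by norm_num) (by omega)
  calc Hp P * 3 ^ (r + 1) + Hp P = Hp P * (3 ^ (r + 1) + 1) := by ring
    _ ≤ Hp P * 3 ^ (s + 1) := Nat.mul_le_mul_left _ h1

/-- The slopes. -/
def ell (i : ℕ) : ℕ := ((Finset.range (i + 1)).filter (fun P => Mp P ≤ i)).card

lemma ell_mono : Monotone ell := by
  intro a b h
  unfold ell
  apply Finset.card_le_card
  intro P hP
  simp only [Finset.mem_filter, Finset.mem_range] at hP ⊢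
  omega

lemma ell_ge {P i : ℕ} (h : Mp P ≤ i) : P + 1 ≤ ell i := by
  unfold ell
  calc P + 1 = (Finset.range (P + 1)).card := (Finset.card_range _).symm
    _ ≤ _ := by
      apply Finset.card_le_card
      intro Q hQ
      simp only [Finset.mem_filter, Finset.mem_range] at hQ ⊢
      have h1 : Mp Q ≤ Mp P := Mp_strictMono.monotone (by omega)
      have h2 := le_Mp Q
      omega

lemma ell_le {P i : ℕ} (h : i < Mp (P + 1)) : ell i ≤ P + 1 := by
  unfold ell
  calc _ ≤ (Finset.range (P + 1)).card := by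
        apply Finset.card_le_card
        intro Q hQ
        simp only [Finset.mem_filter, Finset.mem_range] at hQ ⊢
        by_contra hc
        have h1 : Mp (P + 1) ≤ Mp Q := Mp_strictMono.monotone (by omega)
        omega
    _ = P + 1 := Finset.card_range _

lemma ell_pos (i : ℕ) : 1 ≤ ell i := by
  have : Mp 0 ≤ i := by rw [Mp_zero]; exact Nat.zero_le i
  have := ell_ge this
  omega

/-- The logarithmic weight. -/
def Om (n : ℕ) : ℕ := ∑ i ∈ Finset.range n, ell i

lemma Om_zero : Om 0 = 0 := rfl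

lemma Om_succ (n : ℕ) : Om (n + 1) = Om n + ell n := Finset.sum_range_succ _ _

lemma Om_add (a b : ℕ) : Om (a + b) = Om a + ∑ i ∈ Finset.range b, ell (a + i) :=
  Finset.sum_range_add _ _ _

lemma Om_super (a b : ℕ) : Om a + Om b ≤ Om (a + b) := by
  rw [Om_add]
  apply Nat.add_le_add_left
  exact Finset.sum_le_sum fun i _ => ell_mono (by omega)

lemma Om_ge {P a : ℕ} (b : ℕ) (h : Mp P ≤ a) : Om a + (P + 1) * b ≤ Om (a + b) := by
  rw [Om_add]
  apply Nat.add_le_add_left
  calc (P + 1) * b = ∑ i ∈ Finset.range b, (P + 1) := by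
        rw [Finset.sum_const, Finset.card_range, smul_eq_mul, mul_comm]
    _ ≤ _ := Finset.sum_le_sum fun i _ => ell_ge (by omega)

lemma Om_le {P a b : ℕ} (h : a + b ≤ Mp (P + 1)) : Om (a + b) ≤ Om a + (P + 1) * b := by
  rw [Om_add]
  apply Nat.add_le_add_left
  calc _ ≤ ∑ i ∈ Finset.range b, (P + 1) := by
        apply Finset.sum_le_sum
        intro i hi
        rw [Finset.mem_range] at hi
        exact ell_le (by omega)
    _ = (P + 1) * b := by
        rw [Finset.sum_const, Finset.card_range, smul_eq_mul, mul_comm]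

lemma Om_lower (P t : ℕ) : (P + 1) * t ≤ Om t + (P + 1) * Mp P := by
  rcases le_total t (Mp P) with h | h
  · have := Nat.mul_le_mul_left (P + 1) h
    omega
  · obtain ⟨b, rfl⟩ := Nat.exists_eq_add_of_le h
    have h1 := Om_ge b (le_refl (Mp P))
    have h2 : (P + 1) * (Mp P + b) = (P + 1) * Mp P + (P + 1) * b := by ring
    omega

lemma Om_upper {P n : ℕ} (h : n ≤ Mp (P + 1)) : Om n ≤ (P + 1) * n := by
  have h1 := Om_le (P := P) (a := 0) (b := n) (by omega)
  rw [Om_zero, Nat.zero_add, Nat.zero_add] at h1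
  exact h1

/-- Case of small `t`. -/
lemma exp_left {P n t : ℕ} (htn : t ≤ n) (h2 : n ≤ Mp (P + 1)) :
    Om n ≤ Om (n - t) + Om t + (P + 1) * Mp P := by
  have h3 : Om n ≤ Om (n - t) + (P + 1) * t := by
    have := Om_le (P := P) (a := n - t) (b := t) (by omega)
    rwa [Nat.sub_add_cancel htn] at this
  have h4 := Om_lower P t
  omega

/-- Late packets. -/
lemma exp_late {P Q n t : ℕ} (hPQ : P < Q) (htn : n ≤ t) (h1 : Mp Q ≤ t - n)
    (h2 : n ≤ Mp (P + 1)) : Om n + Om (t - n) + n ≤ Om t := by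
  have h3 := Om_ge (P := Q) (a := t - n) n h1
  rw [Nat.sub_add_cancel htn] at h3
  have h4 := Om_upper h2
  have h5 : (P + 1) * n + n ≤ (Q + 1) * n := by
    calc (P + 1) * n + n = (P + 2) * n := by ring
      _ ≤ (Q + 1) * n := Nat.mul_le_mul_right _ (by omega)
  omega

/-- Odd extension. -/
def om (m : ℤ) : ℤ := m.sign * (Om m.natAbs : ℤ)

lemma om_nat (n : ℕ) : om (n : ℤ) = Om n := by
  unfold om
  rcases Nat.eq_zero_or_pos n with h | h
  · subst h; simp [Om_zero]
  · rw [Int.natAbs_natCast, Int.sign_natCast_of_ne_zero (by omega), one_mul]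

lemma om_neg (m : ℤ) : om (-m) = - om m := by
  unfold om
  rw [Int.sign_neg, Int.natAbs_neg]
  ring

lemma om_zero : om 0 = 0 := by
  have := om_nat 0
  simpa [Om_zero] using this

lemma om_step (m : ℤ) : om m + 1 ≤ om (m + 1) := by
  rcases le_or_gt 0 m with h | h
  · obtain ⟨n, rfl⟩ := Int.eq_ofNat_of_zero_le h
    rw [om_nat]
    have : ((n:ℤ) + 1) = ((n + 1 : ℕ) : ℤ) := by push_cast; ring
    rw [this, om_nat, Om_succ]
    have := ell_pos n
    push_cast
    omega
  · obtain ⟨n, hn⟩ := Int.eq_ofNat_of_zero_le (a := -m - 1) (by omega)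
    have h1 : m = -((n + 1 : ℕ) : ℤ) := by push_cast; omega
    have h2 : m + 1 = -((n : ℕ) : ℤ) := by omega
    rw [h2, h1, om_neg, om_neg, om_nat, om_nat, Om_succ]
    have := ell_pos n
    push_cast
    omega

/-- The increments tend to infinity. -/
lemma om_step_ge {P : ℕ} {m : ℤ} (h : (Mp P : ℤ) < |m|) : om m + (P + 1) ≤ om (m + 1) := by
  rcases le_or_gt 0 m with h0 | h0
  · obtain ⟨n, rfl⟩ := Int.eq_ofNat_of_zero_le h0
    rw [om_nat]
    have : ((n:ℤ) + 1) = ((n + 1 : ℕ) : ℤ) := by push_cast; ring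
    rw [this, om_nat, Om_succ]
    have h1 : Mp P ≤ n := by
      rw [abs_of_nonneg h0] at h
      omega
    have := ell_ge h1
    push_cast
    omega
  · obtain ⟨n, hn⟩ := Int.eq_ofNat_of_zero_le (a := -m - 1) (by omega)
    have h1 : m = -((n + 1 : ℕ) : ℤ) := by push_cast; omega
    have h2 : m + 1 = -((n : ℕ) : ℤ) := by omega
    have h3 : Mp P ≤ n := by
      rw [abs_of_neg h0] at h
      omega
    rw [h2, h1, om_neg, om_neg, om_nat, om_nat, Om_succ]
    have := ell_ge h3
    push_cast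
    omega

/-- Two powers of three. -/
lemma three_pow_add {a b c d : ℕ} (h : 3 ^ a + 3 ^ b = 3 ^ c + 3 ^ d) :
    (a = c ∧ b = d) ∨ (a = d ∧ b = c) := by
  have key : ∀ a b c d : ℕ, b ≤ a → d ≤ c → 3 ^ a + 3 ^ b = 3 ^ c + 3 ^ d → a = c ∧ b = d := by
    intro a b c d hab hcd h
    have h1 : a = c := by
      by_contra hne
      have aux : ∀ a b c d : ℕ, b ≤ a → d ≤ c → a < c → 3 ^ a + 3 ^ b = 3 ^ c + 3 ^ d → False := by
        intro a b c d hab hcd hac h
        have e1 : 3 ^ b ≤ 3 ^ a := Nat.pow_le_pow_right (by norm_num) hab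
        have e2 : 3 ^ (a + 1) ≤ 3 ^ c := Nat.pow_le_pow_right (by norm_num) hac
        have e3 : 0 < 3 ^ a := by positivity
        rw [pow_succ] at e2
        have e4 : 0 < 3 ^ d := by positivity
        omega
      rcases lt_or_gt_of_ne hne with h' | h'
      · exact aux a b c d hab hcd h' h
      · exact aux c d a b hcd hab h' h.symm
    subst h1
    refine ⟨rfl, ?_⟩
    have : 3 ^ b = 3 ^ d := by omega
    exact Nat.pow_right_injective (le_refl _) (by simpa using this) |> fun h => h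
  rcases le_total b a with h1 | h1 <;> rcases le_total d c with h2 | h2
  · exact Or.inl (key a b c d h1 h2 h)
  · right
    have := key a b d c h1 h2 (by omega)
    exact this
  · right
    have := key b a c d h1 h2 (by omega)
    exact ⟨this.2, this.1⟩
  · left
    have := key b a d c h1 h2 (by omega)
    exact ⟨this.2, this.1⟩

end Pool.Agent.V1190.WS
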