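import Mathlib
import Pool.Agent.V1190.WS.Omega

/-! The weighted bilateral shift on the space of null sequences. -/

open Filter Topology ZeroAtInfty

namespace Pool.Agent.V1190.WS

variable (𝕜 : Type) [RCLike 𝕜]

/-- The space. -/
abbrev B := C₀(ℤ, 𝕜)

variable {𝕜}

lemma apply_le (x : B 𝕜) (m : ℤ) : ‖x m‖ ≤ ‖x‖ := x.toBCF.norm_coe_le_norm m

lemma norm_le_of {x : B 𝕜} {C : ℝ} (hC : 0 ≤ C) (h : ∀ m, ‖x m‖ ≤ C) : ‖x‖ ≤ C := by
  rw [← ZeroAtInftyContinuousMap.norm_toBCF_eq_norm]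
  exact (BoundedContinuousFunction.norm_le hC).2 h

lemma tendsto_B (x : B 𝕜) : Tendsto x cofinite (𝓝 0) := by
  have := x.zero_at_infty'
  rwa [cocompact_eq_cofinite] at this

/-- Building vectors. -/
noncomputable def mk0 (g : ℤ → 𝕜) (h : Tendsto g cofinite (𝓝 0)) : B 𝕜 where
  toFun := g
  continuous_toFun := continuous_of_discreteTopology
  zero_at_infty' := by rwa [cocompact_eq_cofinite]

lemma mk0_apply (g : ℤ → 𝕜) (h : Tendsto g cofinite (𝓝 0)) (m : ℤ) : mk0 g h m = g m := rfl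

lemma tendsto_of_finset (g : ℤ → 𝕜) (s : Finset ℤ) (h : ∀ m, m ∉ s → g m = 0) :
    Tendsto g cofinite (𝓝 0) := by
  apply tendsto_const_nhds.congr'
  have : (↑s : Set ℤ)ᶜ ∈ cofinite := s.finite_toSet.compl_mem_cofinite
  filter_upwards [this] with m hm
  exact (h m (by simpa using hm)).symm

/-- Building vectors of finite support. -/
noncomputable def mkf (g : ℤ → 𝕜) (s : Finset ℤ) (h : ∀ m, m ∉ s → g m = 0) : B 𝕜 :=
  mk0 g (tendsto_of_finset g s h)

lemma mkf_apply (g : ℤ → 𝕜) (s : Finset ℤ) (h : ∀ m, m ∉ s → g m = 0) (m : ℤ) :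
    mkf g s h m = g m := rfl

/-- Powers of two in the field. -/
noncomputable def tw (z : ℤ) : 𝕜 := (2:𝕜) ^ z

lemma norm_tw (z : ℤ) : ‖(tw z : 𝕜)‖ = (2:ℝ) ^ z := by
  unfold tw
  rw [norm_zpow, RCLike.norm_two]

lemma tw_add (a b : ℤ) : (tw (a + b) : 𝕜) = tw a * tw b := zpow_add₀ two_ne_zero a b

lemma tw_zero : (tw 0 : 𝕜) = 1 := zpow_zero _

lemma tw_ne (z : ℤ) : (tw z : 𝕜) ≠ 0 := zpow_ne_zero _ two_ne_zero

/-- The weights. -/
noncomputable def wt (m : ℤ) : 𝕜 := tw (om m - om (m + 1))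

lemma norm_wt_le (m : ℤ) : ‖(wt m : 𝕜)‖ ≤ 1 := by
  unfold wt
  rw [norm_tw]
  apply zpow_le_one_of_nonpos₀ (by norm_num)
  have := om_step m
  omega

lemma norm_wt_small {P : ℕ} {m : ℤ} (h : (Mp P : ℤ) < |m|) : ‖(wt m : 𝕜)‖ ≤ (1 / 2) ^ P := by
  unfold wt
  rw [norm_tw]
  have h1 := om_step_ge h
  calc (2:ℝ) ^ (om m - om (m + 1)) ≤ (2:ℝ) ^ (-(P:ℤ)) := by
        apply zpow_le_zpow_right₀ (by norm_num)
        omega
    _ = (1 / 2) ^ P := by
        rw [zpow_neg, zpow_natCast, one_div, inv_pow]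

lemma shift_tendsto (x : B 𝕜) : Tendsto (fun m : ℤ => x (m + 1)) cofinite (𝓝 0) :=
  (tendsto_B x).comp (add_left_injective (1:ℤ)).tendsto_cofinite

/-- The operator. -/
noncomputable def T : B 𝕜 →L[𝕜] B 𝕜 :=
  LinearMap.mkContinuous
    { toFun := fun x => mk0 (fun m => wt m * x (m + 1)) (by
        refine squeeze_zero_norm (fun m => ?_) (tendsto_zero_iff_norm_tendsto_zero.1 (shift_tendsto x))
        rw [norm_mul]
        exact mul_le_of_le_one_left (norm_nonneg _) (norm_wt_le m))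
      map_add' := fun x y => by
        ext m
        simp only [mk0_apply, ZeroAtInftyContinuousMap.add_apply]
        ring
      map_smul' := fun c x => by
        ext m
        simp only [mk0_apply, ZeroAtInftyContinuousMap.smul_apply, smul_eq_mul, RingHom.id_apply]
        ring } 1 (fun x => by
        rw [one_mul]
        apply norm_le_of (norm_nonneg _)
        intro m
        change ‖wt m * x (m + 1)‖ ≤ _
        rw [norm_mul]
        exact (mul_le_of_le_one_left (norm_nonneg _) (norm_wt_le m)).trans (apply_le x _))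

lemma T_apply (x : B 𝕜) (m : ℤ) : T x m = wt m * x (m + 1) := rfl

lemma T_pow_apply (n : ℕ) (x : B 𝕜) (m : ℤ) :
    (T ^ n) x m = tw (om m - om (m + n)) * x (m + n) := by
  induction n generalizing x with
  | zero => simp [tw_zero]
  | succ n ih =>
    rw [pow_succ, mul_apply_eq_comp, ih, T_apply, ← mul_assoc]
    unfold wt
    rw [← tw_add]
    have h1 : m + (n:ℤ) + 1 = m + ((n + 1 : ℕ) : ℤ) := by push_cast; ring
    rw [h1]
    congr 2
    ring

/-- Evaluation. -/
noncomputable def ev (m : ℤ) : B 𝕜 →L[𝕜] 𝕜 :=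
  LinearMap.mkContinuous
    { toFun := fun x => x m
      map_add' := fun x y => rfl
      map_smul' := fun c x => rfl } 1 (fun x => by
        rw [one_mul]; exact apply_le x m)

lemma ev_apply (m : ℤ) (x : B 𝕜) : ev m x = x m := rfl

/-- Unit vectors. -/
noncomputable def e (m : ℤ) : B 𝕜 :=
  mkf (fun k => if k = m then 1 else 0) {m} (fun k hk => if_neg (by simpa using hk))

lemma e_apply (m k : ℤ) : (e m : B 𝕜) k = if k = m then 1 else 0 := rfl

/-- Rank one pieces. -/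
noncomputable def rk (m : ℤ) : B 𝕜 →L[𝕜] B 𝕜 :=
  (ContinuousLinearMap.toSpanSingleton 𝕜 ((wt m : 𝕜) • (e m : B 𝕜))).comp (ev (m + 1))

lemma rk_apply (m : ℤ) (x : B 𝕜) (k : ℤ) :
    rk m x k = if k = m then wt k * x (k + 1) else 0 := by
  unfold rk
  rw [ContinuousLinearMap.comp_apply, ContinuousLinearMap.toSpanSingleton_apply,
    ZeroAtInftyContinuousMap.smul_apply, ZeroAtInftyContinuousMap.smul_apply, e_apply, ev_apply]
  by_cases h : k = m
  · subst h
    simp [mul_comm]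
  · simp [h]

lemma rk_compact (m : ℤ) : IsCompactOperator (rk m : B 𝕜 → B 𝕜) := by
  have h2 : IsCompactOperator (ContinuousLinearMap.toSpanSingleton 𝕜
      ((wt m : 𝕜) • (e m : B 𝕜)) : 𝕜 → B 𝕜) :=
    isCompactOperator_of_locallyCompactSpace_rng _
  exact h2.comp_clm (ev (m + 1))

/-- Cut-off operators. -/
noncomputable def TN (N : ℕ) : B 𝕜 →L[𝕜] B 𝕜 := ∑ m ∈ Finset.Icc (-(N:ℤ)) N, rk m

lemma Bsum_apply {ι : Type*} (s : Finset ι) (f : ι → B 𝕜) (m : ℤ) :
    (∑ i ∈ s, f i) m = ∑ i ∈ s, f i m := by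
  have := map_sum (ev m : B 𝕜 →L[𝕜] 𝕜) f s
  exact this

lemma TN_apply (N : ℕ) (x : B 𝕜) (k : ℤ) :
    TN N x k = if k ∈ Finset.Icc (-(N:ℤ)) N then wt k * x (k + 1) else 0 := by
  unfold TN
  rw [_root_.sum_apply, Bsum_apply]
  rw [Finset.sum_congr rfl (fun m _ => rk_apply m x k), Finset.sum_ite_eq]

lemma TN_compact (N : ℕ) : IsCompactOperator (TN N : B 𝕜 → B 𝕜) := by
  unfold TN
  have : ∀ s : Finset ℤ, IsCompactOperator ((∑ m ∈ s, rk m : B 𝕜 →L[𝕜] B 𝕜) : B 𝕜 → B 𝕜) := by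
    intro s
    induction s using Finset.induction_on with
    | empty =>
      rw [Finset.sum_empty]
      exact isCompactOperator_zero
    | insert a s ha ih =>
      rw [Finset.sum_insert ha]
      exact (rk_compact a).add ih
  exact this _

lemma T_compact : IsCompactOperator (T : B 𝕜 → B 𝕜) := by
  refine isCompactOperator_of_tendsto (l := atTop) (F := fun P : ℕ => (TN (Mp P) : B 𝕜 →L[𝕜] B 𝕜))
    ?_ (Eventually.of_forall fun P => TN_compact (Mp P))
  rw [tendsto_iff_norm_sub_tendsto_zero]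
  refine squeeze_zero (fun P => norm_nonneg _) (fun P => ?_)
    (tendsto_pow_atTop_nhds_zero_of_lt_one (r := (1:ℝ) / 2) (by norm_num) (by norm_num))
  apply ContinuousLinearMap.opNorm_le_bound _ (by positivity)
  intro x
  apply norm_le_of (by positivity)
  intro k
  rw [_root_.sub_apply, ZeroAtInftyContinuousMap.sub_apply, TN_apply, T_apply]
  by_cases h : k ∈ Finset.Icc (-(Mp P:ℤ)) (Mp P)
  · rw [if_pos h, sub_self, norm_zero]
    positivity
  · rw [if_neg h, zero_sub, norm_neg, norm_mul]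
    apply mul_le_mul _ (apply_le x _) (norm_nonneg _) (by positivity)
    apply norm_wt_small
    rw [Finset.mem_Icc, not_and_or] at h
    rw [lt_abs]
    omega

/-- Approximation by vectors of finite support. -/
lemma exists_approx (z : B 𝕜) {ε : ℝ} (hε : 0 < ε) :
    ∃ s : Finset ℤ, ∀ m, m ∉ s → ‖z m‖ < ε := by
  have h := tendsto_B z
  rw [Metric.tendsto_nhds] at h
  have h1 := h ε hε
  rw [eventually_cofinite] at h1
  refine ⟨h1.toFinset, fun m hm => ?_⟩
  rw [Set.Finite.mem_toFinset] at hm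
  simpa using hm

lemma T_dense : DenseRange (T : B 𝕜 → B 𝕜) := by
  intro z
  rw [Metric.mem_closure_iff]
  intro ε hε
  obtain ⟨s, hs⟩ := exists_approx z (half_pos hε)
  have hfin : ∀ m, m ∉ s.image (fun k => k + 1) →
      (if m - 1 ∈ s then (wt (m - 1) : 𝕜)⁻¹ * z (m - 1) else 0) = 0 := by
    intro m hm
    rw [if_neg]
    intro h
    exact hm (Finset.mem_image.2 ⟨m - 1, h, by ring⟩)
  refine ⟨T (mkf _ _ hfin), ⟨_, rfl⟩, ?_⟩
  rw [dist_eq_norm]
  refine lt_of_le_of_lt (norm_le_of (half_pos hε).le ?_) (half_lt_self hε)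
  intro m
  rw [ZeroAtInftyContinuousMap.sub_apply, T_apply, mkf_apply]
  have h1 : m + 1 - 1 = m := by ring
  rw [h1]
  by_cases h : m ∈ s
  · rw [if_pos h, ← mul_assoc, mul_inv_cancel₀ (tw_ne _), one_mul, sub_self, norm_zero]
    exact (half_pos hε).le
  · rw [if_neg h, mul_zero, sub_zero]
    exact (hs m h).le

end Pool.Agent.V1190.WS
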