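import Mathlib
import Pool.Agent.V1190.WS.Omega
import Pool.Agent.V1190.WS.Op

/-! The blocks of the weakly supercyclic vector. -/

open Filter Topology ZeroAtInfty

namespace Pool.Agent.V1190.WS

variable {𝕜 : Type} [RCLike 𝕜]

lemma sum_le_of_unique {ι : Type*} (s : Finset ι) (g : ι → 𝕜) {C : ℝ} (hC : 0 ≤ C)
    (h : ∀ i ∈ s, ‖g i‖ ≤ C) (hu : ∀ i ∈ s, ∀ j ∈ s, g i ≠ 0 → g j ≠ 0 → i = j) :
    ‖∑ i ∈ s, g i‖ ≤ C := by
  by_cases hex : ∃ i ∈ s, g i ≠ 0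
  · obtain ⟨i, hi, hgi⟩ := hex
    rw [Finset.sum_eq_single_of_mem i hi]
    · exact h i hi
    · intro j hj hne
      by_contra hc
      exact hne (hu j hj i hi hc hgi)
  · push Not at hex
    rw [Finset.sum_eq_zero hex, norm_zero]
    exact hC

/-- Blocks. -/
noncomputable def bl (u : ℕ → ℤ → 𝕜) (P s : ℕ) (m : ℤ) : 𝕜 :=
  tw (om m - Om (tm P s) - 2 * ((P:ℤ) + 1) ^ 2) * u P (m - tm P s)

section

variable {u : ℕ → ℤ → 𝕜} (hu0 : ∀ (P : ℕ) (m : ℤ), (P:ℤ) < |m| → u P m = 0)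
  (hu1 : ∀ (P : ℕ) (m : ℤ), ‖u P m‖ ≤ (2:ℝ) ^ P)

include hu0

lemma bl_supp {P s : ℕ} {m : ℤ} (h : bl u P s m ≠ 0) : |m - tm P s| ≤ P := by
  by_contra hc
  push Not at hc
  apply h
  unfold bl
  rw [hu0 P _ hc, mul_zero]

lemma bl_unique {P s s' : ℕ} {m : ℤ} (h : bl u P s m ≠ 0) (h' : bl u P s' m ≠ 0) : s = s' := by
  have h1 := bl_supp hu0 h
  have h2 := bl_supp hu0 h'
  have h3 := Hp_ge P
  have h4 := sq_ge P
  rw [abs_le] at h1 h2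
  by_contra hne
  rcases lt_or_gt_of_ne hne with hlt | hlt
  · have h5 := tm_lt (P := P) hlt
    omega
  · have h5 := tm_lt (P := P) hlt
    omega

lemma bl_pos {P s : ℕ} {m : ℤ} (h : bl u P s m ≠ 0) : ∃ t : ℕ, m = t ∧
    tm P s ≤ t + P ∧ t ≤ tm P s + P := by
  have h1 := bl_supp hu0 h
  have h3 := Hp_ge P
  have h4 := sq_ge P
  have h5 := tm_ge P s
  rw [abs_le] at h1
  refine ⟨m.toNat, ?_, ?_, ?_⟩ <;> omega

include hu1

lemma bl_norm {P s : ℕ} (hs : s < Np P) (m : ℤ) : ‖bl u P s m‖ ≤ (1 / 2) ^ (P + 1) := by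
  by_cases h : bl u P s m = 0
  · rw [h, norm_zero]; positivity
  obtain ⟨t, rfl, h1, h2⟩ := bl_pos hu0 h
  have hO : Om t ≤ Om (tm P s) + (P + 1) * P := by
    rcases le_total t (tm P s) with hle | hle
    · obtain ⟨b, hb⟩ := Nat.exists_eq_add_of_le hle
      have := Om_super t b
      rw [← hb] at this
      omega
    · obtain ⟨b, hb⟩ := Nat.exists_eq_add_of_le hle
      have h3 := tm_le hs
      have h4 := Om_le (P := P) (a := tm P s) (b := b) (by omega)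
      rw [← hb] at h4
      have h5 : (P + 1) * b ≤ (P + 1) * P := Nat.mul_le_mul_left _ (by omega)
      omega
  unfold bl
  rw [norm_mul, norm_tw, om_nat]
  have h6 : (2:ℝ) ^ ((Om t : ℤ) - Om (tm P s) - 2 * ((P:ℤ) + 1) ^ 2) ≤
      (2:ℝ) ^ (((P:ℤ) + 1) * P - 2 * ((P:ℤ) + 1) ^ 2) := by
    apply zpow_le_zpow_right₀ (by norm_num)
    have : (Om t : ℤ) ≤ Om (tm P s) + (P + 1) * P := by exact_mod_cast hO
    linarith
  calc _ ≤ (2:ℝ) ^ (((P:ℤ) + 1) * P - 2 * ((P:ℤ) + 1) ^ 2) * (2:ℝ) ^ P :=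
        mul_le_mul h6 (hu1 P _) (norm_nonneg _) (by positivity)
    _ = (2:ℝ) ^ (((P:ℤ) + 1) * P - 2 * ((P:ℤ) + 1) ^ 2 + P) := by
        rw [zpow_add₀ (by norm_num : (2:ℝ) ≠ 0), zpow_natCast]
    _ ≤ (2:ℝ) ^ (-((P + 1 : ℕ) : ℤ)) := by
        apply zpow_le_zpow_right₀ (by norm_num)
        push_cast
        nlinarith [Int.natCast_nonneg P]
    _ = (1 / 2) ^ (P + 1) := by
        rw [zpow_neg, zpow_natCast, one_div, inv_pow]

end

/-- The packets as functions. -/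
noncomputable def Xf (u : ℕ → ℤ → 𝕜) (P : ℕ) (m : ℤ) : 𝕜 :=
  ∑ s ∈ Finset.range (Np P), bl u P s m

section

variable {u : ℕ → ℤ → 𝕜} (hu0 : ∀ (P : ℕ) (m : ℤ), (P:ℤ) < |m| → u P m = 0)
  (hu1 : ∀ (P : ℕ) (m : ℤ), ‖u P m‖ ≤ (2:ℝ) ^ P)

include hu0

lemma Xf_supp {P : ℕ} {m : ℤ} (h : Xf u P m ≠ 0) :
    ∃ s < Np P, ∃ t : ℕ, m = t ∧ tm P s ≤ t + P ∧ t ≤ tm P s + P := by
  obtain ⟨s, hs, hb⟩ := Finset.exists_ne_zero_of_sum_ne_zero h
  exact ⟨s, Finset.mem_range.1 hs, bl_pos hu0 hb⟩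

lemma Xf_zero {P : ℕ} {m : ℤ} (h : m ∉ Finset.Icc (0:ℤ) (Mp (P + 1))) : Xf u P m = 0 := by
  by_contra hc
  obtain ⟨s, hs, t, rfl, h1, h2⟩ := Xf_supp hu0 hc
  apply h
  rw [Finset.mem_Icc]
  have := tm_le hs
  omega

/-- The packets. -/
noncomputable def XP (P : ℕ) : B 𝕜 :=
  mkf (Xf u P) (Finset.Icc (0:ℤ) (Mp (P + 1))) (fun _ h => Xf_zero hu0 h)

lemma XP_apply (P : ℕ) (m : ℤ) : XP hu0 P m = Xf u P m := rfl

include hu1

lemma Xf_norm (P : ℕ) (m : ℤ) : ‖Xf u P m‖ ≤ (1 / 2) ^ (P + 1) := by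
  apply sum_le_of_unique _ _ (by positivity)
  · intro s hs
    exact bl_norm hu0 hu1 (Finset.mem_range.1 hs) m
  · intro i _ j _ h1 h2
    exact bl_unique hu0 h1 h2

lemma XP_norm (P : ℕ) : ‖XP hu0 P‖ ≤ (1 / 2) ^ (P + 1) :=
  norm_le_of (by positivity) (fun m => Xf_norm hu0 hu1 P m)

omit hu0 hu1 in
lemma geo_summable : Summable (fun P : ℕ => ((1:ℝ) / 2) ^ (P + 1)) := by
  have := summable_geometric_two
  exact (summable_nat_add_iff 1).2 this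

omit hu0 hu1 in
lemma geo_tsum : ∑' P : ℕ, ((1:ℝ) / 2) ^ (P + 1) = 1 := by
  have h := tsum_geometric_two
  have h1 : (fun P : ℕ => ((1:ℝ) / 2) ^ (P + 1)) = fun P => (1 / 2) ^ P * (1 / 2) := by
    funext P; rw [pow_succ]
  rw [h1, tsum_mul_right, h]
  norm_num

lemma XP_summable : Summable (fun P => XP hu0 P) :=
  Summable.of_norm_bounded geo_summable (XP_norm hu0 hu1)

/-- Late packets are small. -/
lemma late_one {P Q r : ℕ} (hPQ : P < Q) (hr : r < Np P) :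
    ‖(T ^ (tm P r)) (XP hu0 Q)‖ ≤ (2:ℝ) ^ (-((Om (tm P r) : ℤ) + tm P r)) * (1 / 2) ^ (Q + 1) := by
  apply norm_le_of (by positivity)
  intro m
  rw [T_pow_apply, XP_apply, norm_mul, norm_tw]
  by_cases h : Xf u Q (m + (tm P r : ℤ)) = 0
  · rw [h, norm_zero, mul_zero]; positivity
  apply mul_le_mul _ (Xf_norm hu0 hu1 Q _) (norm_nonneg _) (by positivity)
  obtain ⟨s, hs, t, ht, h1, h2⟩ := Xf_supp hu0 h
  apply zpow_le_zpow_right₀ (by norm_num)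
  have h3 := tm_ge Q s
  have h4 := Hp_ge Q
  have h5 := sq_ge Q
  have h6 := tm_le hr
  have h7 : Mp (P + 1) ≤ Mp Q := Mp_strictMono.monotone (by omega)
  have h8 : tm P r ≤ t := by omega
  have h9 := exp_late (P := P) (Q := Q) (n := tm P r) (t := t) hPQ h8 (by omega) (by omega)
  have h10 : m = ((t - tm P r : ℕ) : ℤ) := by
    rw [Nat.cast_sub h8]; omega
  rw [ht, om_nat, h10, om_nat]
  omega

end

end Pool.Agent.V1190.WS
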