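import Mathlib
import Pool.Agent.V1190.WS.Omega
import Pool.Agent.V1190.WS.Op
import Pool.Agent.V1190.WS.Vec

/-! The weak approximation at the times of a packet. -/

open Filter Topology ZeroAtInfty

namespace Pool.Agent.V1190.WS

variable {𝕜 : Type} [RCLike 𝕜]

/-- Functionals on vectors with disjoint supports. -/
lemma disj_sum (f : B 𝕜 →L[𝕜] 𝕜) (R : Finset ℕ) (z : ℕ → B 𝕜) {A : ℝ} (hA : 0 ≤ A)
    (hz : ∀ r ∈ R, ∀ m, ‖z r m‖ ≤ A)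
    (hd : ∀ r ∈ R, ∀ r' ∈ R, ∀ m, z r m ≠ 0 → z r' m ≠ 0 → r = r') :
    ∑ r ∈ R, ‖f (z r)‖ ≤ A * ‖f‖ := by
  have hε : ∀ r, ∃ c : 𝕜, ‖c‖ ≤ 1 ∧ c * f (z r) = (‖f (z r)‖ : 𝕜) := by
    intro r
    by_cases h : f (z r) = 0
    · exact ⟨0, by simp, by rw [h]; simp⟩
    · refine ⟨(starRingEnd 𝕜) (f (z r)) / ‖f (z r)‖, ?_, ?_⟩
      · rw [norm_div, RCLike.norm_conj, RCLike.norm_ofReal, abs_of_nonneg (norm_nonneg _),
          div_self (by rwa [norm_ne_zero_iff])]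
      · rw [div_mul_eq_mul_div, RCLike.conj_mul, sq, mul_div_assoc, div_self, mul_one]
        rwa [ne_eq, RCLike.ofReal_eq_zero, norm_eq_zero]
  choose c hc1 hc2 using hε
  have h1 : f (∑ r ∈ R, c r • z r) = ((∑ r ∈ R, ‖f (z r)‖ : ℝ) : 𝕜) := by
    rw [map_sum]
    push_cast
    apply Finset.sum_congr rfl
    intro r _
    rw [map_smul, smul_eq_mul, hc2]
  have h2 : ‖∑ r ∈ R, c r • z r‖ ≤ A := by
    apply norm_le_of hA
    intro m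
    rw [Bsum_apply]
    apply sum_le_of_unique _ _ hA
    · intro r hr
      rw [ZeroAtInftyContinuousMap.smul_apply, norm_smul]
      exact (mul_le_of_le_one_left (norm_nonneg _) (hc1 r)).trans (hz r hr m)
    · intro r hr r' hr' h h'
      rw [ZeroAtInftyContinuousMap.smul_apply] at h h'
      exact hd r hr r' hr' m (right_ne_zero_of_smul h) (right_ne_zero_of_smul h')
  have h3 : ‖f (∑ r ∈ R, c r • z r)‖ = ∑ r ∈ R, ‖f (z r)‖ := by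
    rw [h1, RCLike.norm_ofReal, abs_of_nonneg (Finset.sum_nonneg fun _ _ => norm_nonneg _)]
  rw [← h3]
  calc _ ≤ ‖f‖ * ‖∑ r ∈ R, c r • z r‖ := f.le_opNorm _
    _ ≤ ‖f‖ * A := mul_le_mul_of_nonneg_left h2 f.opNorm_nonneg
    _ = A * ‖f‖ := mul_comm _ _

section

variable {u : ℕ → ℤ → 𝕜} (hu0 : ∀ (P : ℕ) (m : ℤ), (P:ℤ) < |m| → u P m = 0)
  (hu1 : ∀ (P : ℕ) (m : ℤ), ‖u P m‖ ≤ (2:ℝ) ^ P)

include hu0

/-- The targets. -/
noncomputable def io (P : ℕ) : B 𝕜 :=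
  mkf (fun m => tw (om m) * u P m) (Finset.Icc (-(P:ℤ)) P) (fun m hm => by
    rw [hu0 P m, mul_zero]
    rw [Finset.mem_Icc, not_and_or] at hm
    rw [lt_abs]
    omega)

lemma io_apply (P : ℕ) (m : ℤ) : io hu0 P m = tw (om m) * u P m := rfl

/-- Partial sums. -/
noncomputable def SP (P : ℕ) : B 𝕜 := ∑ Q ∈ Finset.range (P + 1), XP hu0 Q

/-- The remainder function. -/
noncomputable def yf (u : ℕ → ℤ → 𝕜) (P r : ℕ) (t : ℤ) : 𝕜 :=
  (∑ Q ∈ Finset.range P, Xf u Q t) + ∑ s ∈ (Finset.range (Np P)).erase r, bl u P s t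

lemma SP_sub {P r : ℕ} (hr : r < Np P) (t : ℤ) :
    SP hu0 P t - bl u P r t = yf u P r t := by
  unfold SP yf
  rw [Bsum_apply, Finset.sum_range_succ]
  simp only [XP_apply]
  have : Xf u P t = bl u P r t + ∑ s ∈ (Finset.range (Np P)).erase r, bl u P s t :=
    (Finset.add_sum_erase _ _ (Finset.mem_range.2 hr)).symm
  rw [this]
  ring

/-- Interfering vectors. -/
noncomputable def zv (P r : ℕ) : B 𝕜 :=
  (tw (Om (tm P r)) : 𝕜) • (T ^ (tm P r)) (SP hu0 P) - (tw (-(2 * ((P:ℤ) + 1) ^ 2)) : 𝕜) • io hu0 P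

lemma zv_apply {P r : ℕ} (hr : r < Np P) (m : ℤ) :
    zv hu0 P r m = tw (Om (tm P r) + om m - om (m + tm P r)) * yf u P r (m + tm P r) := by
  unfold zv
  rw [ZeroAtInftyContinuousMap.sub_apply, ZeroAtInftyContinuousMap.smul_apply,
    ZeroAtInftyContinuousMap.smul_apply, T_pow_apply, io_apply, ← SP_sub hu0 hr]
  unfold bl
  rw [mul_sub, smul_eq_mul, smul_eq_mul, ← mul_assoc, ← mul_assoc, ← mul_assoc, ← tw_add, ← tw_add,
    ← tw_add]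
  have e1 : (Om (tm P r) : ℤ) + (om m - om (m + tm P r)) =
      Om (tm P r) + om m - om (m + tm P r) := by ring
  have e2 : (Om (tm P r) : ℤ) + om m - om (m + tm P r) +
      (om (m + tm P r) - Om (tm P r) - 2 * ((P:ℤ) + 1) ^ 2) =
      -(2 * ((P:ℤ) + 1) ^ 2) + om m := by ring
  have e3 : m + (tm P r : ℤ) - tm P r = m := by ring
  rw [e1, e2, e3]

lemma yf_supp {P r : ℕ} {t : ℤ} (h : yf u P r t ≠ 0) :
    0 ≤ t ∧ (|t| ≤ Mp P ∨ ∃ s < Np P, s ≠ r ∧ |t - tm P s| ≤ P) := by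
  unfold yf at h
  by_cases h1 : ∑ Q ∈ Finset.range P, Xf u Q t = 0
  · rw [h1, zero_add] at h
    obtain ⟨s, hs, hb⟩ := Finset.exists_ne_zero_of_sum_ne_zero h
    rw [Finset.mem_erase, Finset.mem_range] at hs
    obtain ⟨t', rfl, _⟩ := bl_pos hu0 hb
    exact ⟨by omega, Or.inr ⟨s, hs.2, hs.1, bl_supp hu0 hb⟩⟩
  · obtain ⟨Q, hQ, hb⟩ := Finset.exists_ne_zero_of_sum_ne_zero h1
    rw [Finset.mem_range] at hQ
    obtain ⟨s, hs, t', rfl, h2, h3⟩ := Xf_supp hu0 hb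
    have h4 := tm_le hs
    have h5 : Mp (Q + 1) ≤ Mp P := Mp_strictMono.monotone (by omega)
    refine ⟨by omega, Or.inl ?_⟩
    rw [Nat.abs_cast]
    exact_mod_cast (by omega : t' ≤ Mp P)

/-- Rounding. -/
lemma round_pos {P r : ℕ} {m : ℤ} (h : yf u P r (m + tm P r) ≠ 0) :
    |m + (Hp P : ℤ) * 3 ^ (r + 1)| ≤ Mp P + P ∨
      ∃ s < Np P, s ≠ r ∧ |m - (Hp P : ℤ) * (3 ^ (s + 1) - 3 ^ (r + 1))| ≤ Mp P + P := by
  obtain ⟨_, h1 | ⟨s, hs, hne, h1⟩⟩ := yf_supp hu0 h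
  · left
    have : (tm P r : ℤ) = (Hp P : ℤ) * 3 ^ (r + 1) := by unfold tm; push_cast; ring
    rw [← this]
    linarith [Int.natCast_nonneg P]
  · right
    refine ⟨s, hs, hne, ?_⟩
    have e1 : (tm P r : ℤ) = (Hp P : ℤ) * 3 ^ (r + 1) := by unfold tm; push_cast; ring
    have e2 : (tm P s : ℤ) = (Hp P : ℤ) * 3 ^ (s + 1) := by unfold tm; push_cast; ring
    have : m - (Hp P : ℤ) * (3 ^ (s + 1) - 3 ^ (r + 1)) = m + tm P r - tm P s := by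
      rw [e1, e2]; ring
    rw [this]
    linarith [Int.natCast_nonneg (Mp P)]

omit hu0 in
lemma round_eq {P : ℕ} {m q q' : ℤ} (h : |m - (Hp P : ℤ) * q| ≤ Mp P + P)
    (h' : |m - (Hp P : ℤ) * q'| ≤ Mp P + P) : q = q' := by
  by_contra hne
  have h1 : 1 ≤ |q - q'| := Int.one_le_abs (sub_ne_zero.2 hne)
  have h2 : (Hp P : ℤ) ≤ |(Hp P : ℤ) * (q - q')| := by
    rw [abs_mul, Nat.abs_cast]
    nlinarith [Int.natCast_nonneg (Hp P)]
  have h3 : |(Hp P : ℤ) * (q - q')| ≤ (Mp P + P) + (Mp P + P) := by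
    have : (Hp P : ℤ) * (q - q') = (m - (Hp P : ℤ) * q') - (m - (Hp P : ℤ) * q) := by ring
    rw [this]
    exact (abs_sub _ _).trans (add_le_add h' h)
  have h4 := Hp_ge P
  have h5 := sq_ge P
  have h6 : ((4 * Mp P + 4 * (P + 1) : ℕ) : ℤ) ≤ Hp P := by exact_mod_cast (by omega)
  push_cast at h6
  linarith

lemma yf_disj {P r r' : ℕ} {m : ℤ} (h : yf u P r (m + tm P r) ≠ 0)
    (h' : yf u P r' (m + tm P r') ≠ 0) : r = r' := by
  by_contra hne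
  have odd3 : ∀ k : ℕ, Odd ((3:ℤ) ^ k) := fun k => Odd.pow (by decide)
  rcases round_pos hu0 h with h1 | ⟨s, hs, hsr, h1⟩ <;>
  rcases round_pos hu0 h' with h2 | ⟨s', hs', hsr', h2⟩
  · have e1 : m + (Hp P : ℤ) * 3 ^ (r + 1) = m - (Hp P : ℤ) * (-3 ^ (r + 1)) := by ring
    have e2 : m + (Hp P : ℤ) * 3 ^ (r' + 1) = m - (Hp P : ℤ) * (-3 ^ (r' + 1)) := by ring
    rw [e1] at h1
    rw [e2] at h2
    have := round_eq h1 h2
    have h3 : (3:ℤ) ^ (r + 1) = 3 ^ (r' + 1) := by linarith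
    have h4 : (3:ℕ) ^ (r + 1) = 3 ^ (r' + 1) := by exact_mod_cast h3
    have h5 := Nat.pow_right_injective (le_refl 3 |> fun _ => by norm_num : 2 ≤ 3) h4
    omega
  · have e1 : m + (Hp P : ℤ) * 3 ^ (r + 1) = m - (Hp P : ℤ) * (-3 ^ (r + 1)) := by ring
    rw [e1] at h1
    have := round_eq h1 h2
    have h3 : (3:ℤ) ^ (r' + 1) = 3 ^ (s' + 1) + 3 ^ (r + 1) := by linarith
    have h4 := (odd3 (s' + 1)).add_odd (odd3 (r + 1))
    rw [← h3] at h4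
    exact (Int.not_even_iff_odd.2 (odd3 (r' + 1))) h4
  · have e1 : m + (Hp P : ℤ) * 3 ^ (r' + 1) = m - (Hp P : ℤ) * (-3 ^ (r' + 1)) := by ring
    rw [e1] at h2
    have := round_eq h1 h2
    have h3 : (3:ℤ) ^ (r + 1) = 3 ^ (s + 1) + 3 ^ (r' + 1) := by linarith
    have h4 := (odd3 (s + 1)).add_odd (odd3 (r' + 1))
    rw [← h3] at h4
    exact (Int.not_even_iff_odd.2 (odd3 (r + 1))) h4
  · have := round_eq h1 h2
    have h3 : (3:ℤ) ^ (s + 1) + 3 ^ (r' + 1) = 3 ^ (s' + 1) + 3 ^ (r + 1) := by linarith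
    have h4 : (3:ℕ) ^ (s + 1) + 3 ^ (r' + 1) = 3 ^ (s' + 1) + 3 ^ (r + 1) := by exact_mod_cast h3
    rcases three_pow_add h4 with ⟨h5, h6⟩ | ⟨h5, h6⟩
    · omega
    · omega

include hu1

lemma yf_norm {P r : ℕ} (t : ℤ) : ‖yf u P r t‖ ≤ 1 := by
  unfold yf
  have h1 : ‖∑ Q ∈ Finset.range P, Xf u Q t‖ ≤ ∑ Q ∈ Finset.range P, (1 / 2 : ℝ) ^ (Q + 1) :=
    (norm_sum_le _ _).trans (Finset.sum_le_sum fun Q _ => Xf_norm hu0 hu1 Q t)
  have h2 : ‖∑ s ∈ (Finset.range (Np P)).erase r, bl u P s t‖ ≤ (1 / 2 : ℝ) ^ (P + 1) := by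
    apply sum_le_of_unique _ _ (by positivity)
    · intro s hs
      exact bl_norm hu0 hu1 (Finset.mem_range.1 (Finset.mem_of_mem_erase hs)) t
    · intro i _ j _ h1 h2
      exact bl_unique hu0 h1 h2
  calc _ ≤ _ := norm_add_le _ _
    _ ≤ ∑ Q ∈ Finset.range P, (1 / 2 : ℝ) ^ (Q + 1) + (1 / 2 : ℝ) ^ (P + 1) := add_le_add h1 h2
    _ = ∑ Q ∈ Finset.range (P + 1), (1 / 2 : ℝ) ^ (Q + 1) := (Finset.sum_range_succ _ _).symm
    _ ≤ ∑' Q : ℕ, (1 / 2 : ℝ) ^ (Q + 1) :=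
        geo_summable.sum_le_tsum _ (fun _ _ => by positivity)
    _ = 1 := geo_tsum

lemma zv_norm {P r : ℕ} (hr : r < Np P) (m : ℤ) :
    ‖zv hu0 P r m‖ ≤ (2:ℝ) ^ ((P + 1) * Mp P) := by
  rw [zv_apply hu0 hr, norm_mul, norm_tw]
  by_cases h : yf u P r (m + tm P r) = 0
  · rw [h, norm_zero, mul_zero]; positivity
  obtain ⟨h0, _⟩ := yf_supp hu0 h
  obtain ⟨t, ht⟩ := Int.eq_ofNat_of_zero_le h0
  have h1 : (2:ℝ) ^ ((Om (tm P r) : ℤ) + om m - om (m + tm P r)) ≤ (2:ℝ) ^ ((P + 1) * Mp P) := by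
    rw [← zpow_natCast]
    apply zpow_le_zpow_right₀ (by norm_num)
    rw [ht, om_nat]
    rcases le_total t (tm P r) with hle | hle
    · have h2 := tm_le hr
      have h3 := exp_left (P := P) hle (by omega)
      have h4 : m = -((tm P r - t : ℕ) : ℤ) := by
        rw [Nat.cast_sub hle]; omega
      rw [h4, om_neg, om_nat]
      omega
    · have h4 : m = ((t - tm P r : ℕ) : ℤ) := by
        rw [Nat.cast_sub hle]; omega
      rw [h4, om_nat]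
      have h5 := Om_super (tm P r) (t - tm P r)
      have h6 : tm P r + (t - tm P r) = t := by omega
      rw [h6] at h5
      have h7 : (0:ℤ) ≤ (((P + 1) * Mp P : ℕ) : ℤ) := Int.natCast_nonneg _
      omega
  calc _ ≤ (2:ℝ) ^ ((P + 1) * Mp P) * 1 :=
        mul_le_mul h1 (yf_norm hu0 hu1 _) (norm_nonneg _) (by positivity)
    _ = _ := mul_one _

/-- The vector. -/
noncomputable def xv : B 𝕜 := ∑' P, XP hu0 P

lemma xv_eq (P : ℕ) : (∑' Q, XP hu0 Q : B 𝕜) = SP hu0 P + ∑' Q, XP hu0 (Q + (P + 1)) :=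
  ((XP_summable hu0 hu1).sum_add_tsum_nat_add (P + 1)).symm

lemma tail_small {P r : ℕ} (hr : r < Np P) :
    ‖(tw ((Om (tm P r) : ℤ) + 2 * ((P:ℤ) + 1) ^ 2) : 𝕜) •
      (T ^ (tm P r)) (∑' Q, XP hu0 (Q + (P + 1)))‖ ≤ (1 / 2) ^ (P + 1) := by
  have hs : Summable (fun Q => XP hu0 (Q + (P + 1))) :=
    (summable_nat_add_iff (P + 1)).2 (XP_summable hu0 hu1)
  rw [ContinuousLinearMap.map_tsum _ hs, norm_smul, norm_tw]
  have h1 : ∀ Q : ℕ, ‖(T ^ (tm P r)) (XP hu0 (Q + (P + 1)))‖ ≤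
      (2:ℝ) ^ (-((Om (tm P r) : ℤ) + tm P r)) * (1 / 2) ^ (Q + 1) := by
    intro Q
    refine (late_one hu0 hu1 (by omega) hr).trans ?_
    apply mul_le_mul_of_nonneg_left _ (by positivity)
    exact pow_le_pow_of_le_one (by norm_num) (by norm_num) (by omega)
  have h2 : ‖∑' Q, (T ^ (tm P r)) (XP hu0 (Q + (P + 1)))‖ ≤
      (2:ℝ) ^ (-((Om (tm P r) : ℤ) + tm P r)) * 1 := by
    have := tsum_of_norm_bounded (geo_summable.hasSum.mul_left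
      ((2:ℝ) ^ (-((Om (tm P r) : ℤ) + tm P r)))) h1
    rwa [geo_tsum] at this
  calc _ ≤ (2:ℝ) ^ ((Om (tm P r) : ℤ) + 2 * ((P:ℤ) + 1) ^ 2) *
        ((2:ℝ) ^ (-((Om (tm P r) : ℤ) + tm P r)) * 1) :=
        mul_le_mul_of_nonneg_left h2 (by positivity)
    _ = (2:ℝ) ^ (2 * ((P:ℤ) + 1) ^ 2 - tm P r) := by
        rw [mul_one, ← zpow_add₀ (by norm_num : (2:ℝ) ≠ 0)]
        congr 1
        ring
    _ ≤ (2:ℝ) ^ (-((P + 1 : ℕ) : ℤ)) := by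
        apply zpow_le_zpow_right₀ (by norm_num)
        have h3 := tm_ge P r
        have h4 := Hp_ge P
        have h5 := sq_ge P
        have h6 : ((2 * (P + 1) ^ 2 + (P + 1) : ℕ) : ℤ) ≤ tm P r := by exact_mod_cast (by omega)
        push_cast at h6 ⊢
        linarith
    _ = (1 / 2) ^ (P + 1) := by
        rw [zpow_neg, zpow_natCast, one_div, inv_pow]

/-- At some time of each packet the orbit is weakly close to the target. -/
lemma packet (F : Finset (B 𝕜 →L[𝕜] 𝕜)) (P : ℕ) : ∃ (c : 𝕜) (n : ℕ), ∀ f ∈ F,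
    ‖f (c • (T ^ n) (∑' Q, XP hu0 Q)) - f (io hu0 P)‖ ≤
      (∑ g ∈ F, ‖g‖) / (P + 1) + (∑ g ∈ F, ‖g‖) * (1 / 2) ^ (P + 1) := by
  set Φ : ℝ := ∑ g ∈ F, ‖g‖ with hΦ
  have hΦ0 : 0 ≤ Φ := Finset.sum_nonneg fun g _ => g.opNorm_nonneg
  have h1 : ∑ r ∈ Finset.range (Np P), ∑ f ∈ F, ‖f (zv hu0 P r)‖ ≤
      (2:ℝ) ^ ((P + 1) * Mp P) * Φ := by
    rw [Finset.sum_comm, hΦ, Finset.mul_sum]
    apply Finset.sum_le_sum
    intro f _
    apply disj_sum f _ _ (by positivity)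
    · intro r hr m
      exact zv_norm hu0 hu1 (Finset.mem_range.1 hr) m
    · intro r hr r' hr' m h h'
      rw [zv_apply hu0 (Finset.mem_range.1 hr)] at h
      rw [zv_apply hu0 (Finset.mem_range.1 hr')] at h'
      exact yf_disj hu0 (right_ne_zero_of_mul h) (right_ne_zero_of_mul h')
  have hNp : (Np P : ℝ) = (P + 1) * ((2:ℝ) ^ ((P + 1) * Mp P) * (2:ℝ) ^ (2 * (P + 1) ^ 2)) := by
    unfold Np
    push_cast
    rw [pow_add]
  have hNpos : 0 < Np P := by unfold Np; positivity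
  obtain ⟨r, hr, h2⟩ : ∃ r ∈ Finset.range (Np P), ∑ f ∈ F, ‖f (zv hu0 P r)‖ ≤
      Φ / ((P + 1) * (2:ℝ) ^ (2 * (P + 1) ^ 2)) := by
    by_contra hcon
    push Not at hcon
    have h3 : ∑ r ∈ Finset.range (Np P), Φ / ((P + 1) * (2:ℝ) ^ (2 * (P + 1) ^ 2)) <
        ∑ r ∈ Finset.range (Np P), ∑ f ∈ F, ‖f (zv hu0 P r)‖ :=
      Finset.sum_lt_sum_of_nonempty ⟨0, Finset.mem_range.2 hNpos⟩ hcon
    rw [Finset.sum_const, Finset.card_range, nsmul_eq_mul, hNp] at h3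
    have h4 : ((P:ℝ) + 1) * ((2:ℝ) ^ ((P + 1) * Mp P) * (2:ℝ) ^ (2 * (P + 1) ^ 2)) *
        (Φ / ((P + 1) * (2:ℝ) ^ (2 * (P + 1) ^ 2))) = (2:ℝ) ^ ((P + 1) * Mp P) * Φ := by
      have : (P:ℝ) + 1 ≠ 0 := by positivity
      field_simp
    rw [h4] at h3
    exact absurd h1 (not_le.2 h3)
  rw [Finset.mem_range] at hr
  refine ⟨tw ((Om (tm P r) : ℤ) + 2 * ((P:ℤ) + 1) ^ 2), tm P r, fun f hf => ?_⟩
  have hdec : (tw ((Om (tm P r) : ℤ) + 2 * ((P:ℤ) + 1) ^ 2) : 𝕜) • (T ^ (tm P r))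
      (∑' Q, XP hu0 Q) - io hu0 P =
      (tw (2 * ((P:ℤ) + 1) ^ 2) : 𝕜) • zv hu0 P r +
      (tw ((Om (tm P r) : ℤ) + 2 * ((P:ℤ) + 1) ^ 2) : 𝕜) •
        (T ^ (tm P r)) (∑' Q, XP hu0 (Q + (P + 1))) := by
    rw [xv_eq hu0 hu1 P, map_add]
    ext m
    unfold zv
    simp only [ZeroAtInftyContinuousMap.sub_apply, ZeroAtInftyContinuousMap.add_apply,
      ZeroAtInftyContinuousMap.smul_apply, smul_eq_mul]
    have hb : (tw (2 * ((P:ℤ) + 1) ^ 2) : 𝕜) * tw (-(2 * ((P:ℤ) + 1) ^ 2)) = 1 := by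
      rw [← tw_add, add_neg_cancel, tw_zero]
    rw [tw_add (Om (tm P r) : ℤ) (2 * ((P:ℤ) + 1) ^ 2)]
    linear_combination (io hu0 P m) * hb
  rw [← map_sub, hdec, map_add]
  refine (norm_add_le _ _).trans (add_le_add ?_ ?_)
  · rw [map_smul, norm_smul, norm_tw]
    have h5 : ‖f (zv hu0 P r)‖ ≤ Φ / ((P + 1) * (2:ℝ) ^ (2 * (P + 1) ^ 2)) :=
      (Finset.single_le_sum (f := fun f => ‖f (zv hu0 P r)‖) (fun _ _ => norm_nonneg _) hf).trans h2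
    have h6 : (2:ℝ) ^ (2 * ((P:ℤ) + 1) ^ 2) = (2:ℝ) ^ (2 * (P + 1) ^ 2) := by
      rw [← zpow_natCast]
      push_cast
      rfl
    rw [h6]
    calc _ ≤ (2:ℝ) ^ (2 * (P + 1) ^ 2) * (Φ / ((P + 1) * (2:ℝ) ^ (2 * (P + 1) ^ 2))) :=
          mul_le_mul_of_nonneg_left h5 (by positivity)
      _ = Φ / (P + 1) := by
          have : (P:ℝ) + 1 ≠ 0 := by positivity
          field_simp
  · refine (f.le_opNorm _).trans ?_
    apply mul_le_mul _ (tail_small hu0 hu1 hr) (norm_nonneg _) hΦ0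
    exact Finset.single_le_sum (f := fun g : B 𝕜 →L[𝕜] 𝕜 => ‖g‖) (fun g _ => g.opNorm_nonneg) hf

end

end Pool.Agent.V1190.WS
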